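import Mathlib
import Pool.Agent.Lib.MP_e2b313_al.Fin

/-!
# A general type group of isometries without maximal subgroups

There are a geodesic Gromov hyperbolic space and a subgroup of general type of its isometry group
which has no maximal subgroup.
-/

set_option autoImplicit false

namespace Pool.Agent.Results.MP_e2b313_al.NoMaximalSubgroup

open Filter

universe u

/-- `S` is a geodesic metric space: any two points are joined by a geodesic segment. -/
def IsGeodesic (S : Type u) [MetricSpace S] : Prop :=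
  ∀ x y : S, ∃ γ : ℝ → S, γ 0 = x ∧ γ (dist x y) = y ∧
    ∀ s ∈ Set.Icc (0 : ℝ) (dist x y), ∀ t ∈ Set.Icc (0 : ℝ) (dist x y), dist (γ s) (γ t) = |s - t|

section defs

variable {S : Type u} [MetricSpace S]

/-- The Gromov product `(x | y)_w`. -/
noncomputable def gromovProduct (w x y : S) : ℝ := (dist w x + dist w y - dist x y) / 2

variable (S) in
/-- `S` is `δ`-hyperbolic in the sense of Gromov for some `δ ≥ 0`. -/
def IsGromovHyperbolic : Prop :=
  ∃ δ : ℝ, 0 ≤ δ ∧ ∀ w x y z : S,
    min (gromovProduct w x y) (gromovProduct w y z) - δ ≤ gromovProduct w x z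

/-- `g` is loxodromic: for every point `s` the map `n ↦ g ^ n s` is a quasi-isometric embedding of
`ℤ` into `S`. -/
def IsLoxodromic (g : S ≃ᵢ S) : Prop :=
  ∀ s : S, ∃ K L : ℝ, 1 ≤ K ∧ 0 ≤ L ∧ ∀ m n : ℤ,
    K⁻¹ * |(m : ℝ) - n| - L ≤ dist ((g ^ m) s) ((g ^ n) s) ∧
      dist ((g ^ m) s) ((g ^ n) s) ≤ K * |(m : ℝ) - n| + L

/-- Two sequences (which converge to infinity) define the same point of the Gromov boundary: their
Gromov products tend to infinity. The base point `w` is irrelevant. -/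
def SameBoundaryPoint (w : S) (x y : ℕ → S) : Prop :=
  Tendsto (fun p : ℕ × ℕ => gromovProduct w (x p.1) (y p.2)) atTop atTop

/-- Two loxodromic isometries are independent: no fixed point of `g` in the Gromov boundary, which
is the class of `(g ^ n s)` or of `(g ^ (-n) s)`, is a fixed point of `h`. -/
def Independent (g h : S ≃ᵢ S) : Prop :=
  ∀ (w s : S) (ε ε' : ℤˣ), ¬ SameBoundaryPoint w (fun n : ℕ => (g ^ ((ε : ℤ) * n)) s)
    (fun n : ℕ => (h ^ ((ε' : ℤ) * n)) s)

/-- `G` is of general type: it contains two independent loxodromic isometries. -/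
def IsGeneralType (G : Subgroup (S ≃ᵢ S)) : Prop :=
  ∃ g ∈ G, ∃ h ∈ G, IsLoxodromic g ∧ IsLoxodromic h ∧ Independent g h

end defs

/-- `M` is a maximal subgroup of `G`: it is proper and there is no subgroup strictly between `M`
and `G`. -/
def IsMaximalSubgroup {G : Type u} [Group G] (M : Subgroup G) : Prop :=
  M ≠ ⊤ ∧ ¬ ∃ H : Subgroup G, M < H ∧ H < ⊤

/-- The Frattini subgroup: the intersection of all maximal subgroups, and `G` if there are none. -/
def frattiniSubgroup (G : Type u) [Group G] : Subgroup G := sInf {M | IsMaximalSubgroup M}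

section lemmas

variable {S : Type u} [MetricSpace S]

theorem dist_zpow (g : S ≃ᵢ S) (s : S) (m n : ℤ) :
    dist ((g ^ m) s) ((g ^ n) s) = dist s ((g ^ (n - m)) s) := by
  have h1 : (g ^ n) s = (g ^ m) ((g ^ (n - m)) s) := by
    rw [← IsometryEquiv.mul_apply, ← zpow_add]
    congr 2
    ring
  rw [h1, (g ^ m).dist_eq]

theorem dist_zpow_neg (g : S ≃ᵢ S) (s : S) (n : ℤ) :
    dist s ((g ^ (-n)) s) = dist s ((g ^ n) s) := by
  have h1 := dist_zpow g s n 0
  rw [zero_sub, zpow_zero] at h1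
  rw [← h1, dist_comm]
  rfl

theorem dist_pow_le (g : S ≃ᵢ S) (s : S) (n : ℕ) : dist s ((g ^ n) s) ≤ n * dist s (g s) := by
  induction n with
  | zero => simp
  | succ n ih =>
    have h1 : dist ((g ^ n) s) ((g ^ (n + 1)) s) = dist s (g s) := by
      rw [pow_succ, IsometryEquiv.mul_apply, (g ^ n).dist_eq]
    have h2 := dist_triangle s ((g ^ n) s) ((g ^ (n + 1)) s)
    push_cast
    linarith

theorem dist_zpow_le (g : S ≃ᵢ S) (s : S) (n : ℤ) :
    dist s ((g ^ n) s) ≤ |(n : ℝ)| * dist s (g s) := by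
  rcases Int.eq_nat_or_neg n with ⟨k, rfl | rfl⟩
  · have h1 := dist_pow_le g s k
    simpa using h1
  · rw [dist_zpow_neg]
    have h1 := dist_pow_le g s k
    simpa using h1

theorem loxodromic_of {g : S ≃ᵢ S} {x : S} {c : ℝ} (hc : 0 < c)
    (h : ∀ n : ℕ, c * (n : ℝ) ≤ dist x ((g ^ n) x)) : IsLoxodromic g := by
  intro s
  have h1 : ∀ n : ℤ, c * |(n : ℝ)| - 2 * dist x s ≤ dist s ((g ^ n) s) := by
    intro n
    have h2 : c * |(n : ℝ)| ≤ dist x ((g ^ n) x) := by
      rcases Int.eq_nat_or_neg n with ⟨k, rfl | rfl⟩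
      · simpa using h k
      · rw [dist_zpow_neg]
        simpa using h k
    have h3 := dist_triangle x s ((g ^ n) x)
    have h4 := dist_triangle s ((g ^ n) s) ((g ^ n) x)
    rw [(g ^ n).dist_eq, dist_comm s x] at h4
    linarith
  set K : ℝ := max 1 (max c⁻¹ (dist s (g s))) with hK
  have hK1 : 1 ≤ K := le_max_left _ _
  have hK2 : c⁻¹ ≤ K := (le_max_left _ _).trans (le_max_right _ _)
  have hK3 : dist s (g s) ≤ K := (le_max_right _ _).trans (le_max_right _ _)
  have hK4 : K⁻¹ ≤ c := by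
    rw [inv_le_comm₀ (by linarith) hc]
    exact hK2
  refine ⟨K, 2 * dist x s, hK1, by positivity, fun m n => ?_⟩
  rw [dist_zpow]
  have h5 : |((n - m : ℤ) : ℝ)| = |(m : ℝ) - n| := by
    push_cast
    exact abs_sub_comm _ _
  have h6 := h1 (n - m)
  have h7 := dist_zpow_le g s (n - m)
  rw [h5] at h6 h7
  have h8 := abs_nonneg ((m : ℝ) - n)
  have h9 : 0 ≤ dist x s := dist_nonneg
  constructor
  · have := mul_le_mul_of_nonneg_right hK4 h8
    linarith
  · have := mul_le_mul_of_nonneg_left hK3 h8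
    linarith

theorem independent_of {g h : S ≃ᵢ S} {x : S} {C : ℝ}
    (hC : ∀ n m : ℤ,
      (dist x ((g ^ n) x) + dist x ((h ^ m) x) - dist ((g ^ n) x) ((h ^ m) x)) / 2 ≤ C) :
    Independent g h := by
  intro w s ε ε' ht
  have hb : ∀ n m : ℤ, gromovProduct w ((g ^ n) s) ((h ^ m) s) ≤ C + dist w x + 2 * dist x s := by
    intro n m
    have h1 := hC n m
    have h2 := dist_triangle4 w x ((g ^ n) x) ((g ^ n) s)
    have h3 := dist_triangle4 w x ((h ^ m) x) ((h ^ m) s)
    have h4 := dist_triangle4 ((g ^ n) x) ((g ^ n) s) ((h ^ m) s) ((h ^ m) x)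
    rw [(g ^ n).dist_eq] at h2 h4
    rw [(h ^ m).dist_eq] at h3 h4
    rw [dist_comm s x] at h4
    unfold gromovProduct
    linarith
  obtain ⟨p, hp⟩ := (ht.eventually_gt_atTop (C + dist w x + 2 * dist x s)).exists
  exact absurd (hb _ _) (not_le.2 hp)

end lemmas

/-- **Theorem.** There are a geodesic Gromov hyperbolic metric space `S` and a group `G` of
isometries of `S` of general type which has no maximal subgroup; so the Frattini subgroup of `G`
is `G`. -/
theorem result : ∃ (S : Type) (_ : MetricSpace S), IsGeodesic S ∧ IsGromovHyperbolic S ∧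
    ∃ G : Subgroup (S ≃ᵢ S), IsGeneralType G ∧ (∀ M : Subgroup G, ¬ IsMaximalSubgroup M) ∧
      frattiniSubgroup G = ⊤ := by
  obtain ⟨G, ⟨g, hg, h, hh, x, c, hc, h1, C, hC⟩, hno⟩ := Pool.Agent.NoMax.final
  have hmax : ∀ M : Subgroup G, ¬ IsMaximalSubgroup M := by
    rintro M ⟨hM1, hM2⟩
    refine hno M ⟨hM1, fun H hH => ?_⟩
    by_contra hne
    exact hM2 ⟨H, hH, lt_top_iff_ne_top.2 hne⟩
  refine ⟨Pool.Agent.NoMax.HS, inferInstance, Pool.Agent.NoMax.HS_geodesic,
    ⟨Real.log 48, (Real.log_pos (by norm_num)).le,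
      fun w x y z => Pool.Agent.NoMax.HS_hyp x y z w⟩, G,
    ⟨g, hg, h, hh, loxodromic_of hc fun n => (h1 n).1, loxodromic_of hc fun n => (h1 n).2,
      independent_of hC⟩, hmax, ?_⟩
  unfold frattiniSubgroup
  rw [Set.eq_empty_of_forall_notMem (s := {M : Subgroup G | IsMaximalSubgroup M}) hmax]
  exact sInf_empty

end Pool.Agent.Results.MP_e2b313_al.NoMaximalSubgroup
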